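import Pool.Agent.Helper922.HB.Final

set_option autoImplicit false

open scoped LinearAlgebra.Projectivization
open Pool.Agent.Helper922.HB

namespace Pool.Agent.Results.MP_ed9921_ag.CuspidalBielliptic

/-- There is a closed complex submanifold `X` of `ℂ × ℙ(ℂ^ι)` of dimension `3` whose projection
`f : X → ℂ` has connected fibres, is a submersion at every point over `ℂ ∖ {0}`, is a `ℤ`-homology
fibre bundle, and is not a submersion at some point over `0`. -/
theorem result : ∃ (ι : Type) (_ : Fintype ι) (X : Set (ℂ × ℙ ℂ (ι → ℂ))),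
    IsClosedSubmanifold 3 X ∧
    (∀ t : ℂ, IsConnected {p | p ∈ X ∧ p.1 = t}) ∧
    (∀ p ∈ X, p.1 ≠ 0 → ProjSubmersiveAt 3 X p) ∧
    IsZHomologyFiberBundle (fun p : X => p.1.1) ∧
    ∃ p ∈ X, p.1 = 0 ∧ ¬ ProjSubmersiveAt 3 X p :=
  Pool.Agent.Helper922.HB.result_main

end Pool.Agent.Results.MP_ed9921_ag.CuspidalBielliptic
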